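import Pool.Agent.H68.Md4

namespace Pool.Agent.Results.MP_e319d1_co.Median

open Pool.Agent.H68.Bg Pool.Agent.H68.Md

theorem result {B W : Type} [Group W] {M : CoxeterMatrix B} (cs : CoxeterSystem M W)
    (hsl : ∀ s t, s ≠ t → M s t = 2 ∨ M s t = 3) (a : List B) (ha : cs.IsReduced a) :
    IsMedian (graph M a) :=
  Pool.Agent.H68.Md.main cs hsl ha

end Pool.Agent.Results.MP_e319d1_co.Median
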